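import Mathlib
import Pool.Agent.H88.GH.Main

/-!
The exact Gromov-Hausdorff distance between the closed unit disc and the unit circle of the
Euclidean plane, both with the Euclidean (chordal) metric.
-/

namespace Pool.Agent.Results.MP_431f4e_gt.DiscCircle

open Metric GromovHausdorff

/-- The closed unit disc is nonempty. -/
instance nonemptyDisc : Nonempty (closedBall (0 : EuclideanSpace ℝ (Fin 2)) 1) :=
  ⟨⟨0, by simp⟩⟩

/-- The unit circle is nonempty. -/
instance nonemptyCircle : Nonempty (sphere (0 : EuclideanSpace ℝ (Fin 2)) 1) :=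
  ⟨⟨EuclideanSpace.single 0 1, by simp⟩⟩

/-- The Gromov-Hausdorff distance between the closed unit disc and the unit circle of the plane
(chordal metrics) is `1 - s`, where `s = 0.3478...` is the only positive root of
`4 s ^ 3 + 4 s ^ 2 + s = 1`. -/
theorem result : ∃ s : ℝ, 0 < s ∧ 4 * s ^ 3 + 4 * s ^ 2 + s = 1 ∧
    (∀ t : ℝ, 0 < t → 4 * t ^ 3 + 4 * t ^ 2 + t = 1 → t = s) ∧
    0.34781 < s ∧ s < 0.34782 ∧
    ghDist (closedBall (0 : EuclideanSpace ℝ (Fin 2)) 1)
      (sphere (0 : EuclideanSpace ℝ (Fin 2)) 1) = 1 - s := by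
  obtain ⟨s, hs, h⟩ := Pool.Agent.H88.GH.exists_root
  refine ⟨s, hs, h, ?_, ?_, ?_, Pool.Agent.H88.GH.main hs h⟩
  · intro t ht h'
    have e : (t - s) * (4 * (t ^ 2 + t * s + s ^ 2) + 4 * (t + s) + 1) = 0 := by
      have : (t - s) * (4 * (t ^ 2 + t * s + s ^ 2) + 4 * (t + s) + 1) =
          (4 * t ^ 3 + 4 * t ^ 2 + t) - (4 * s ^ 3 + 4 * s ^ 2 + s) := by ring
      rw [this, h, h', sub_self]
    rcases mul_eq_zero.1 e with h1 | h1
    · linarith
    · have : 0 < 4 * (t ^ 2 + t * s + s ^ 2) + 4 * (t + s) + 1 := by positivity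
      linarith
  · have := Pool.Agent.H88.GH.s_lower hs h
    norm_num at this ⊢
    linarith
  · have := Pool.Agent.H88.GH.s_upper h
    norm_num at this ⊢
    linarith

end Pool.Agent.Results.MP_431f4e_gt.DiscCircle
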