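import Mathlib
import Pool.Agent.H49.GHL.Lower

/-!
A lower bound for the Gromov-Hausdorff distance between the closed unit ball and the unit sphere
of the Euclidean space of dimension `m + 1`, for every `m ≥ 2` (chordal metrics).
-/

namespace Pool.Agent.Results.MP_431f4e_gt.SharpLowerBound

open Metric GromovHausdorff

/-- The closed unit ball is nonempty. -/
instance nonemptyBall (m : ℕ) : Nonempty (closedBall (0 : EuclideanSpace ℝ (Fin (m + 1))) 1) :=
  ⟨⟨0, by simp⟩⟩

/-- The unit sphere is nonempty. -/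
instance nonemptySphere (m : ℕ) : Nonempty (sphere (0 : EuclideanSpace ℝ (Fin (m + 1))) 1) :=
  ⟨⟨EuclideanSpace.single 0 1, by simp⟩⟩

/-- For every `m ≥ 2` the Gromov-Hausdorff distance between the closed unit ball and the unit
sphere of the Euclidean space of dimension `m + 1` is at least
`(3 √3 / 4) / (1 + √(2 m / (m + 1)))`. -/
theorem result (m : ℕ) (hm : 2 ≤ m) :
    (3 * √3 / 4) / (1 + √(2 * (m : ℝ) / ((m : ℝ) + 1))) ≤
      ghDist (closedBall (0 : EuclideanSpace ℝ (Fin (m + 1))) 1)
        (sphere (0 : EuclideanSpace ℝ (Fin (m + 1))) 1) := by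
  have h1 := Pool.Agent.H49.GHL.lower_exact hm
  rwa [Pool.Agent.H49.GHL.two_cr] at h1

end Pool.Agent.Results.MP_431f4e_gt.SharpLowerBound
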