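import Mathlib
import Pool.Agent.H88.GH.All.MainAll

/-!
An upper bound for the Gromov-Hausdorff distance between the closed unit ball and the unit sphere
of the Euclidean space of dimension `m + 1`, for every `m ≥ 1` (chordal metrics).
-/

namespace Pool.Agent.Results.MP_431f4e_gt.UpperBound

open Metric GromovHausdorff

/-- The closed unit ball is nonempty. -/
instance nonemptyBall (m : ℕ) : Nonempty (closedBall (0 : EuclideanSpace ℝ (Fin (m + 1))) 1) :=
  ⟨⟨0, by simp⟩⟩

/-- The unit sphere is nonempty. -/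
instance nonemptySphere (m : ℕ) : Nonempty (sphere (0 : EuclideanSpace ℝ (Fin (m + 1))) 1) :=
  ⟨⟨EuclideanSpace.single 0 1, by simp⟩⟩

/-- For every `m ≥ 1` the Gromov-Hausdorff distance between the closed unit ball and the unit
sphere of the Euclidean space of dimension `m + 1` is at most `1 - s`, where `s = 0.3478...` is
the positive root of `4 s ^ 3 + 4 s ^ 2 + s = 1`; so it is less than `0.6522`. -/
theorem result : ∃ s : ℝ, 0 < s ∧ 4 * s ^ 3 + 4 * s ^ 2 + s = 1 ∧ 1 - s < 0.6522 ∧
    ∀ m : ℕ, 1 ≤ m →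
      ghDist (closedBall (0 : EuclideanSpace ℝ (Fin (m + 1))) 1)
          (sphere (0 : EuclideanSpace ℝ (Fin (m + 1))) 1) ≤ 1 - s := by
  obtain ⟨s, hs, h⟩ := Pool.Agent.H88.GH.exists_root
  refine ⟨s, hs, h, ?_, fun m hm => Pool.Agent.H88.GH.upper_all' hs h hm⟩
  have h4 := Pool.Agent.H88.GH.s_lower hs h
  norm_num at h4 ⊢
  linarith

end Pool.Agent.Results.MP_431f4e_gt.UpperBound
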